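import Pool.Agent.H80Q.SeqDef

/-!
# Quadratic recurrences are as hard as `E2Star`
-/

set_option autoImplicit false

namespace Pool.Agent.H80Q

open Finset Function Relation Pool.Agent.Grz Pool.Agent.GAvg Pool.Agent.PTr Pool.Agent.LPC
open Pool.Agent.PTr.Clk Pool.Agent.LinU

/-- the orbit meets the state `y` with the queue `0 .. 0 1` -/
def Good (P : List Instr) (K y w p : ℕ) : Prop :=
  ∃ t, t ≤ qn P K * (2 * (p + 1)) ∧
    (sq P K w p ((muf p + t) * 2 ^ (qn P K + 5) + 2 ^ (y + 4)) = 1 ∧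
      ∑ i ∈ range (muf p), sq P K w p ((muf p + t + (muf p - 1 - i)) * 2 ^ (qn P K + 5) + 2 ^ 2) *
        2 ^ i = 1)

variable {P : List Instr} {K : ℕ}

theorem good_def {m k : ℕ} (hm : 2 ≤ m) (H : QuadRec m k)
    (hk : Fintype.card (Mon (qn P K)) ≤ k) (hP : ∀ i ∈ P, i.ok K P.length) (hlen : 0 < P.length)
    (y : ℕ) {n : ℕ} {w p : (Fin n → ℕ) → ℕ} (hw : DFun n w) (hp : DFun n p) :
    Delta0 n (fun v => Good P K y (w v) (p v)) := by
  have hb : DFun n (fun v => qn P K * (2 * (p v + 1))) :=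
    (DFun.const _).mul ((DFun.const 2).mul (hp.add (DFun.const 1)))
  have hμ := muf_dfun hp
  have h1 : DFun (n + 1) (fun u => sq P K (w fun i => u i.succ) (p fun i => u i.succ)
      ((muf (p fun i => u i.succ) + u 0) * 2 ^ (qn P K + 5) + 2 ^ (y + 4))) :=
    sq_dfun (w := fun u => w fun i => u i.succ) (p := fun u => p fun i => u i.succ)
      (t := fun u => (muf (p fun i => u i.succ) + u 0) * 2 ^ (qn P K + 5) + 2 ^ (y + 4))
      hm H hk hP hlen hw.weak hp.weak
      (((hμ.weak.add (DFun.proj 0)).mul (DFun.const _)).add (DFun.const _))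
  have h2 : DFun (n + 1 + 1) (fun u => sq P K (w fun i => u i.succ.succ)
      (p fun i => u i.succ.succ) ((muf (p fun i => u i.succ.succ) + u (Fin.succ 0) +
        (muf (p fun i => u i.succ.succ) - 1 - u 0)) * 2 ^ (qn P K + 5) + 2 ^ 2)) :=
    sq_dfun (w := fun u => w fun i => u i.succ.succ) (p := fun u => p fun i => u i.succ.succ)
      (t := fun u => (muf (p fun i => u i.succ.succ) + u (Fin.succ 0) +
        (muf (p fun i => u i.succ.succ) - 1 - u 0)) * 2 ^ (qn P K + 5) + 2 ^ 2)
      hm H hk hP hlen hw.weak.weak hp.weak.weak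
      ((((hμ.weak.weak.add (DFun.proj (Fin.succ 0))).add
        ((hμ.weak.weak.sub (DFun.const 1)).sub (DFun.proj 0))).mul (DFun.const _)).add
          (DFun.const _))
  have h3 : DFun (n + 1) (fun u => ∑ i ∈ range (muf (p fun i => u i.succ)),
      sq P K (w fun i => u i.succ) (p fun i => u i.succ) ((muf (p fun i => u i.succ) + u 0 +
        (muf (p fun i => u i.succ) - 1 - i)) * 2 ^ (qn P K + 5) + 2 ^ 2) * 2 ^ i) :=
    dfun_code (m := fun _ => 2) (B := fun u => 2 * (p (fun i => u i.succ) + 1))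
      (g := fun i u => sq P K (w fun i => u i.succ) (p fun i => u i.succ)
        ((muf (p fun i => u i.succ) + u 0 + (muf (p fun i => u i.succ) - 1 - i)) *
          2 ^ (qn P K + 5) + 2 ^ 2)) (DFun.const 2) hμ.weak
      ((DFun.const 2).mul (hp.weak.add (DFun.const 1))) h2 (fun _ => le_rfl) (by
        intro u
        have h4 := muf_le (p fun i => u i.succ)
        have h5 : 2 ^ lg (p fun i => u i.succ) ≤ (p fun i => u i.succ) + 1 := by
          rcases Nat.eq_zero_or_pos (p fun i => u i.succ) with h | h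
          · rw [h]
            exact le_rfl
          · exact (Nat.pow_log_le_self 2 (by omega)).trans (Nat.le_succ _)
        calc 2 ^ muf (p fun i => u i.succ) ≤ 2 ^ (lg (p fun i => u i.succ) + 1) :=
              Nat.pow_le_pow_right (by norm_num) h4
          _ = 2 * 2 ^ lg (p fun i => u i.succ) := by rw [pow_succ]; ring
          _ ≤ _ := Nat.mul_le_mul_left _ h5)
  exact Delta0.bexFun hb (P := fun t v => sq P K (w v) (p v)
      ((muf (p v) + t) * 2 ^ (qn P K + 5) + 2 ^ (y + 4)) = 1 ∧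
    ∑ i ∈ range (muf (p v)), sq P K (w v) (p v)
      ((muf (p v) + t + (muf (p v) - 1 - i)) * 2 ^ (qn P K + 5) + 2 ^ 2) * 2 ^ i = 1)
    ((Delta0.eqFun h1 (DFun.const 1)).and (Delta0.eqFun h3 (DFun.const 1)))

theorem good_iff (hP : ∀ i ∈ P, i.ok K P.length) (hlen : 0 < P.length) {y : ℕ}
    (hy : y < qn P K) {n : ℕ} {l lz : List ℕ} (hl : l.length = n + 1) (hb : ∀ b ∈ l, b < 2)
    (hz : lz.length = n + 1) (hz1 : wval 2 lz = 1) :
    Good P K y (wval 2 l) (2 ^ (n + 1)) ↔
      ∃ t, (pmapK P K 2 n)^[t] (num 2 (codest K (0, 0, 1)) l) = num 2 y lz := by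
  have hμ : muf (2 ^ (n + 1)) = n + 1 := by
    unfold muf lg
    rw [Nat.log_pow (by norm_num)]
    omega
  have hwl : wval 2 l < 2 ^ (n + 1) := by
    have := wval_lt hb
    rwa [hl] at this
  have hbits : bits (wval 2 l) (muf (2 ^ (n + 1))) = l := by
    rw [hμ]
    refine wval_inj (by rw [bits_length, hl]) (bits_lt _ _) hb ?_
    rw [wval_eq, bits_length]
    have h1 := code_dg hwl
    refine Eq.trans (sum_congr rfl fun i hi => ?_) h1
    rw [mem_range] at hi
    rw [bits_getD (by omega)]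
    congr 2
    omega
  have horb := fun t => conf_orbit (n := n) (l₀ := l) hP (st := (0, 0, 1))
    ⟨hlen, Nat.zero_le _, le_rfl⟩ hl hb t
  have hqf : qf P K (wval 2 l) (2 ^ (n + 1)) = cq (dltN P K 2) (codest K (0, 0, 1)) l := by
    unfold qf
    rw [hbits]
  have hwf : wf P K (wval 2 l) (2 ^ (n + 1)) = cW (dltN P K 2) (codest K (0, 0, 1)) l := by
    unfold wf
    rw [hbits]
  have hE : ∀ t, sq P K (wval 2 l) (2 ^ (n + 1))
      ((muf (2 ^ (n + 1)) + t) * 2 ^ (qn P K + 5) + 2 ^ (y + 4)) =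
      if cq (dltN P K 2) (codest K (0, 0, 1)) l t = y then 1 else 0 := by
    intro t
    unfold sq
    rw [seq_cell (by omega), cell_four, if_neg (by omega), hqf]
    have : muf (2 ^ (n + 1)) + t - muf (2 ^ (n + 1)) = t := by omega
    rw [this]
  have hZ : ∀ t, ∑ i ∈ range (muf (2 ^ (n + 1))), sq P K (wval 2 l) (2 ^ (n + 1))
      ((muf (2 ^ (n + 1)) + t + (muf (2 ^ (n + 1)) - 1 - i)) * 2 ^ (qn P K + 5) + 2 ^ 2) *
        2 ^ i = wval 2 (conf (dltN P K 2) (codest K (0, 0, 1)) l t).2 := by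
    intro t
    rw [wval_eq (conf (dltN P K 2) (codest K (0, 0, 1)) l t).2, conf_length hl, hμ]
    refine sum_congr rfl fun i hi => ?_
    rw [mem_range] at hi
    unfold sq
    rw [seq_cell (by omega), cell_two, hμ, if_neg (by omega), hwf,
      conf_get (by omega) hl _ _ (by omega)]
    congr 2
    omega
  have hnum : ∀ t, (pmapK P K 2 n)^[t] (num 2 (codest K (0, 0, 1)) l) = num 2 y lz ↔
      (cq (dltN P K 2) (codest K (0, 0, 1)) l t = y ∧
        wval 2 (conf (dltN P K 2) (codest K (0, 0, 1)) l t).2 = 1) := by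
    intro t
    obtain ⟨h1, -, h3⟩ := horb t
    rw [h1]
    have h4 := wval_lt h3
    have h5 := conf_length (δ := dltN P K 2) (c₀ := codest K (0, 0, 1)) hl t
    rw [h5] at h4
    have h6 : 1 < 2 ^ (n + 1) := Nat.one_lt_two_pow (by omega)
    constructor
    · intro h
      have h7 : cq (dltN P K 2) (codest K (0, 0, 1)) l t *
          2 ^ (conf (dltN P K 2) (codest K (0, 0, 1)) l t).2.length +
          wval 2 (conf (dltN P K 2) (codest K (0, 0, 1)) l t).2 =
          y * 2 ^ lz.length + wval 2 lz := congrFun h 0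
      rw [h5, hz, hz1] at h7
      have h8 : cq (dltN P K 2) (codest K (0, 0, 1)) l t = y := by
        have e1 := congrArg (· / 2 ^ (n + 1)) h7
        rwa [mul_comm, Nat.mul_add_div (by positivity), Nat.div_eq_of_lt h4, mul_comm y,
          Nat.mul_add_div (by positivity), Nat.div_eq_of_lt h6, add_zero, add_zero] at e1
      refine ⟨h8, ?_⟩
      rw [h8] at h7
      omega
    · rintro ⟨h7, h8⟩
      funext _
      change cq (dltN P K 2) (codest K (0, 0, 1)) l t *
          2 ^ (conf (dltN P K 2) (codest K (0, 0, 1)) l t).2.length +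
          wval 2 (conf (dltN P K 2) (codest K (0, 0, 1)) l t).2 =
          y * 2 ^ lz.length + wval 2 lz
      rw [h5, hz, hz1, h7, h8]
  unfold Good
  simp only [hE, hZ]
  constructor
  · rintro ⟨t, -, h1, h2⟩
    refine ⟨t, (hnum t).2 ⟨?_, h2⟩⟩
    by_contra hne
    rw [if_neg hne] at h1
    exact absurd h1 (by norm_num)
  · intro hex
    obtain ⟨t, ht, h1⟩ := iterate_bound (pmapK P K 2 n) _ _ (fun z => z 0)
      (qn P K * (2 * (2 ^ (n + 1) + 1))) (by
        intro t
        obtain ⟨h1, ⟨st', hst', hc⟩, h3⟩ := horb t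
        have h4 := wval_lt h3
        have h5 := conf_length (δ := dltN P K 2) (c₀ := codest K (0, 0, 1)) hl t
        have h2 := (coded (K := K) (s := 2) le_rfl hP).lt st' hst'
        rw [hc] at h2
        rw [h1]
        change cq (dltN P K 2) (codest K (0, 0, 1)) l t *
          2 ^ (conf (dltN P K 2) (codest K (0, 0, 1)) l t).2.length +
          wval 2 (conf (dltN P K 2) (codest K (0, 0, 1)) l t).2 < _
        rw [h5] at h4 ⊢
        calc cq (dltN P K 2) (codest K (0, 0, 1)) l t * 2 ^ (n + 1) +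
            wval 2 (conf (dltN P K 2) (codest K (0, 0, 1)) l t).2 <
            (cq (dltN P K 2) (codest K (0, 0, 1)) l t + 1) * 2 ^ (n + 1) := by
              rw [add_mul]
              omega
          _ ≤ qn P K * 2 ^ (n + 1) := Nat.mul_le_mul_right _ h2
          _ ≤ _ := Nat.mul_le_mul_left _ (by omega)) (by
        intro s t h
        funext j
        rw [Subsingleton.elim j 0]
        exact h) hex
    obtain ⟨h2, h3⟩ := (hnum t).1 h1
    exact ⟨t, ht, by rw [if_pos h2], h3⟩

end Pool.Agent.H80Q
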