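import Pool.Agent.H80Q.Conv
import Pool.Agent.H80Q.Hard
import Pool.Agent.PTr.Univ

/-!
# Quadratic recurrences: the contrast

*Statement.* For every `m ≥ 2` there is `k₀` such that for all `k ≥ k₀` the terms of the recurrences
`s (i + N) = ∑ j < k, c j * s (i + a j) * s (i + b j)` modulo `m` are definable by bounded formulas
if and only if `Delta0 = E2Star`.

*Proof.* By `ClkMain.lean` a predicate in `E2Star` is decided by a queue automaton with a fixed
program, whose queue of `μ` digits `0, 1` holds the input. The configurations are written in blocks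
of length `ℓ = 2 ^ (Q + 5)`, `Q` the number of states: the cells of block `μ + t` are two constants
`1`, the digit read at the time `t` and the indicator functions of the states at the time `t`. The
new state and the new digit are sums of products of two different cells (`Core.lean`), the
offsets `1, 2, 4, ..` of the cells are a Sidon set modulo `ℓ`, so the products of one feedback
polynomial which belong to another cell vanish (`phase`). The first `μ` blocks contain the input
and a flag which makes the automaton copy it. The order of the recurrence is `(μ + 1) ℓ`. One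
program is universal (`urel_complete`). ∎
-/

set_option autoImplicit false

namespace Pool.Agent.H80Q

open Finset Function Relation Pool.Agent.Grz Pool.Agent.GAvg Pool.Agent.PTr
open Pool.Agent.PTr.Clk Pool.Agent.LinU

/-- Hardness of quadratic recurrences. -/
theorem exists_quadRec {m : ℕ} (hm : 2 ≤ m) {n : ℕ} {R : (Fin n → ℕ) → Prop}
    (hR : E2Star n R) : ∃ k₀, ∀ k, k₀ ≤ k → QuadRec m k → Delta0 n R := by
  obtain ⟨f, hf, hfR⟩ := hR
  obtain ⟨Qp, K, c, hnK, hcK, hc⟩ := main_cmd hf
  obtain ⟨P, h, hh, hPpos, hP, hflat⟩ := flat_prog c K hcK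
  have hK : 0 < K := by omega
  have hlt : h < P.length := (List.getElem?_eq_some_iff.1 hh).1
  set M : (Fin n → ℕ) → ℕ := fun v => MvPolynomial.eval v Qp + 1 with hM
  refine ⟨Fintype.card (Mon (qn P K)), fun k hk H => ?_⟩
  set y0 : ℕ := codest K (h, 0, 1) with hy0
  have hyq : y0 < qn P K :=
    (coded (K := K) (s := 2) le_rfl hP).lt (h, 0, 1) ⟨hlt, Nat.zero_le _, le_rfl⟩
  set Pb : (Fin n → ℕ) → ℕ := fun v => (4 * M v) ^ (2 * (K + 1)) with hPb
  have hMD : DFun n M := (DFun.ofPoly Qp).add (DFun.const 1)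
  have hPbD : DFun n Pb := DFun.powConst ((DFun.const 4).mul hMD) _
  -- the orbit part
  have hC : Delta0 (n + 2) (fun u => Good P K y0 (u 0) (u 1)) :=
    good_def hm H hk hP hPpos y0 (DFun.proj 0) (DFun.proj 1)
  -- the start
  have hA : Delta0 (n + 2) (fun u => ∃ L, L ≤ 1 * (lg (M (fun i => u i.succ.succ)) + 1) ∧
      Run (fun d : Fin K → Fin 2 => Clk.cA d) (fun _ _ _ => 0) (fun _ _ => True) L
        (Clk.cst 1 (2 ^ (K + 1)) (fun _ => 0))
        (Clk.cst (u 0) (u 1) (regs (fun i => u i.succ.succ)))) := by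
    have h1 := run_delta0 (fun d : Fin K → Fin 2 => Clk.cA d) (fun _ _ _ => 0) (fun _ _ => True)
      (fun _ m g _ => (Delta0.eqFun (DFun.const 0) (DFun.const 0)).of_iff fun v => by simp) 1
      (n := n + 2) (w := fun u => M (fun i => u i.succ.succ)) (hMD.weak.weak)
      (s := fun k u => Clk.cst 1 (2 ^ (K + 1)) (fun _ => 0) k)
      (t := fun k u => Clk.cst (u 0) (u 1) (regs (fun i => u i.succ.succ)) k)
      (fun k => DFun.const _) (fun k => by
        match k with
        | .inl 0 => exact DFun.proj 0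
        | .inl 1 => exact DFun.proj 1
        | .inl 2 => exact DFun.const 1
        | .inr i =>
          show DFun (n + 2) (fun u => regs (fun i => u i.succ.succ) i)
          unfold regs
          by_cases hi : (i : ℕ) < n
          · simp only [dif_pos hi]
            exact DFun.proj _
          · simp only [dif_neg hi]
            exact DFun.const 0)
    exact h1
  have hB : Delta0 (n + 2) (fun u => (2 * M (fun i => u i.succ.succ)) ^ (K + 1) ≤ u 1) :=
    Delta0.leFun (DFun.powConst ((DFun.const 2).mul hMD.weak.weak) _) (DFun.proj 1)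
  have hABC := (hA.and hB).and hC
  have h1 := Delta0.bexFun (n := n + 1) (b := fun u => Pb (fun i => u i.succ)) hPbD.weak
    (P := fun w u => ((∃ L, L ≤ 1 * (lg (M (fun i => u i.succ)) + 1) ∧
      Run (fun d : Fin K → Fin 2 => Clk.cA d) (fun _ _ _ => 0) (fun _ _ => True) L
        (Clk.cst 1 (2 ^ (K + 1)) (fun _ => 0))
        (Clk.cst w (u 0) (regs (fun i => u i.succ)))) ∧
      (2 * M (fun i => u i.succ)) ^ (K + 1) ≤ u 0) ∧ Good P K y0 w (u 0)) hABC
  have h2 := Delta0.bexFun (n := n) (b := Pb) hPbD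
    (P := fun p v => ∃ w, w ≤ Pb v ∧ (((∃ L, L ≤ 1 * (lg (M v) + 1) ∧
      Run (fun d : Fin K → Fin 2 => Clk.cA d) (fun _ _ _ => 0) (fun _ _ => True) L
        (Clk.cst 1 (2 ^ (K + 1)) (fun _ => 0))
        (Clk.cst w p (regs v))) ∧
      (2 * M v) ^ (K + 1) ≤ p) ∧ Good P K y0 w p)) h1
  refine h2.of_iff fun v => ?_
  obtain ⟨hreg, σ', hex, hn', hz⟩ := hc (M v) v (by simp only [hM]; omega)
  have hsteps := hflat (M v) (regs v) σ' hex
  have hM1 : 1 ≤ M v := by simp only [hM]; omega
  have hRiff : R v ↔ ∀ i, i < K → σ' i = 0 := by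
    constructor
    · intro hv i hi
      by_cases hin : i = n
      · subst hin
        rw [hn']
        exact (hfR v).1 hv
      · exact hz i hi hin
    · intro h0
      by_contra hv
      have h3 := (hfR v).2 hv
      rw [← hn', h0 n hnK] at h3
      exact absurd h3 (by norm_num)
  -- the translation of the orbit part
  have htr : ∀ (L : ℕ) (p w : ℕ), p = 2 ^ ((K + 1) * (L + 1)) → M v ≤ 2 ^ L →
      w = wval 2 (tape K 2 L (regs v)) → (Good P K y0 w p ↔ R v) := by
    intro L p w hp hML hw
    obtain ⟨m', hm'⟩ : ∃ m, (K + 1) * (L + 1) = m + 1 :=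
      Nat.exists_eq_succ_of_ne_zero (Nat.mul_ne_zero (by omega) (by omega))
    have hcl := clk_orbit (s := 2) le_rfl hML hK hm' hP hh (fun i _ => hreg i) hsteps
    rw [hRiff, ← hcl, hw, hp, hm']
    exact good_iff hP hPpos hyq (by rw [length_tape, hm']) (tape_lt le_rfl L (regs v))
      (by rw [length_tape, hm']) (wval_tape_zero L)
  constructor
  · intro hv
    have hLM : M v ≤ 2 ^ (lg (M v) + 1) := (lt_two_pow_lg (M v)).le
    set L := lg (M v) + 1 with hL
    have hσ : ∀ i, i < K → regs v i < 2 ^ L := fun i _ => lt_of_lt_of_le (hreg i) hLM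
    have hrun := crun_complete (s := 2) le_rfl L (regs v) hσ
    have hpb : 2 ^ ((K + 1) * (L + 1)) ≤ Pb v := by
      have h4 := lg_pow_ge (M v) hM1
      calc 2 ^ ((K + 1) * (L + 1)) ≤ (2 ^ 2) ^ ((K + 1) * (L + 1)) :=
            Nat.pow_le_pow_left (by norm_num) _
        _ = (2 ^ (L + 1)) ^ (2 * (K + 1)) := by rw [← pow_mul, ← pow_mul]; ring_nf
        _ ≤ Pb v := by
          refine Nat.pow_le_pow_left ?_ _
          rw [hL, pow_succ, pow_succ]
          omega
    have hw : wval 2 (tape K 2 L (regs v)) < 2 ^ ((K + 1) * (L + 1)) := by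
      have := wval_lt (tape_lt (s := 2) le_rfl L (regs v) (K := K))
      rwa [length_tape] at this
    refine ⟨2 ^ ((K + 1) * (L + 1)), hpb, wval 2 (tape K 2 L (regs v)), hw.le.trans hpb,
      ⟨⟨L, by omega, hrun⟩, ?_⟩, ?_⟩
    · calc (2 * M v) ^ (K + 1) ≤ (2 * 2 ^ L) ^ (K + 1) :=
            Nat.pow_le_pow_left (Nat.mul_le_mul_left _ hLM) _
        _ = 2 ^ ((K + 1) * (L + 1)) := by rw [← pow_succ', ← pow_mul]; congr 1; ring
    · exact (htr L _ _ rfl hLM rfl).2 hv
  · rintro ⟨p, -, w, -, ⟨⟨L, -, hrun⟩, hB'⟩, horb⟩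
    obtain ⟨σ, hσ, he⟩ := crun_sound (s := 2) le_rfl hrun
    have ew : w = wval 2 (tape K 2 L σ) := congrFun he (.inl 0)
    have ep : p = 2 ^ ((K + 1) * (L + 1)) := congrFun he (.inl 1)
    have eσ : ∀ i, i < K → regs v i = σ i := fun i hi => congrFun he (.inr ⟨i, hi⟩)
    rw [tape_congr L (fun i hi => (eσ i hi).symm)] at ew
    have hML : M v ≤ 2 ^ L := by
      rw [ep] at hB'
      have h3 : (2 * M v) ^ (K + 1) ≤ (2 ^ (L + 1)) ^ (K + 1) := by
        refine hB'.trans (le_of_eq ?_)
        rw [← pow_mul]; congr 1; ring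
      have h4 : 2 * M v ≤ 2 ^ (L + 1) := (Nat.pow_le_pow_iff_left (by omega)).1 h3
      rw [pow_succ'] at h4
      exact Nat.le_of_mul_le_mul_left h4 (by omega)
    exact (htr L p w ep hML ew).1 horb

/-- Quadratic recurrences of unbounded order with a bounded number of products are as hard as
`Delta0 = E2Star`. -/
theorem quad_contrast {m : ℕ} (hm : 2 ≤ m) : ∃ k₀, ∀ k, k₀ ≤ k →
    (QuadRec m k ↔ ∀ (n : ℕ) (R : (Fin n → ℕ) → Prop), Delta0 n R ↔ E2Star n R) := by
  obtain ⟨k₀, hk₀⟩ := exists_quadRec hm urel_e2Star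
  refine ⟨k₀, fun k hk => ⟨fun H n R => ⟨fun h => h.e2Star, fun hR => ?_⟩, fun H =>
    quadRec_of_eq hm fun n R => (H n R).2⟩⟩
  have h1 := hk₀ k hk H
  obtain ⟨g, hg⟩ := urel_complete hR
  refine (h1.subst (h := fun i v => MvPolynomial.eval v (g i))
    (fun i => DFun.ofPoly _)).of_iff fun v => ?_
  exact hg v

end Pool.Agent.H80Q
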