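import Pool.Agent.H80Q.Defs
import Pool.Agent.GAvg.DigDef
import Pool.Agent.GAvg.E2Tools

/-!
# Quadratic recurrences: the easy direction
-/

set_option autoImplicit false

namespace Pool.Agent.H80Q

open Finset Pool.Agent.Grz Pool.Agent.GAvg Pool.Agent.PTr Pool.Agent.LinU

private theorem e2_dfun (H : ∀ (k : ℕ) (R : (Fin k → ℕ) → Prop), E2Star k R → Delta0 k R)
    {n : ℕ} {f : (Fin n → ℕ) → ℕ} (hf : E2 n f) : DFun n f :=
  ⟨H _ _ (E2Star.eqFun (E2.proj 0) hf.weak), hf.bounded⟩

private theorem conv_sum {n : ℕ} {ι : Type*} (S : Finset ι) {f : ι → (Fin n → ℕ) → ℕ}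
    (hf : ∀ j, E2 n (f j)) : E2 n (fun v => ∑ j ∈ S, f j v) := by
  classical
  induction S using Finset.induction_on with
  | empty => simpa using E2.zero n
  | insert j S hj ih =>
    refine ((hf j).add ih).congr fun v => ?_
    rw [Finset.sum_insert hj]

private theorem conv_divPow (m : ℕ) : E2 2 (fun w => w 1 / m ^ w 0) := by
  have := E2.rec' (n := 1) (G := fun v => v 0) (H := fun z _ _ => z / m) (B := fun _ v => v 0)
    (F := fun y v => v 0 / m ^ y) (E2.proj 0) ((E2.proj 0).div (E2.const m)) (E2.proj 1)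
    (fun y v => Nat.div_le_self _ _) (fun v => by simp)
    (fun y v => by rw [pow_succ, Nat.div_div_eq_div_mul])
  exact this

private theorem conv_dg {n : ℕ} (m : ℕ) {z i : (Fin n → ℕ) → ℕ} (hz : E2 n z) (hi : E2 n i) :
    E2 n (fun v => dg m (z v) (i v)) :=
  (E2.comp2 (g := fun i z => z / m ^ i) (conv_divPow m) hi hz).mod (E2.const m)

private theorem conv_minPow {n m : ℕ} (hm : 2 ≤ m) {B : (Fin n → ℕ) → ℕ} (hB : E2 n B) :
    E2 (n + 1) (fun w => Nat.min (m ^ w 0) (B (fun i => w i.succ))) := by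
  refine E2.rec' (G := fun v => Nat.min 1 (B v)) (H := fun z _ v => Nat.min (m * z) (B v))
    (B := fun _ v => B v) (F := fun y v => Nat.min (m ^ y) (B v)) (E2.min (E2.const 1) hB)
    (E2.min ((E2.const m).mul (E2.proj 0)) hB.weak.weak) hB.weak
    (fun y v => Nat.min_le_right _ _) (fun v => by simp) (fun y v => ?_)
  show min (m ^ (y + 1)) (B v) = min (m * min (m ^ y) (B v)) (B v)
  rw [pow_succ]
  rcases le_total (m ^ y) (B v) with h | h
  · rw [min_eq_left h, mul_comm]
  · rw [min_eq_right h, min_eq_right (by nlinarith), min_eq_right (by nlinarith)]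

private theorem conv_powN {n m : ℕ} (hm : 2 ≤ m) {N B : (Fin n → ℕ) → ℕ} (hN : E2 n N)
    (hB : E2 n B) (h : ∀ v, m ^ N v ≤ B v) : E2 n (fun v => m ^ N v) := by
  refine (E2.substFirst (F := fun y v => Nat.min (m ^ y) (B v)) (conv_minPow hm hB) hN).congr ?_
  intro v
  exact (Nat.min_eq_left (h v)).symm

/-- the code of `N` successive terms -/
private theorem conv_step {m : ℕ} (hm : 2 ≤ m) {s : ℕ → ℕ} (hs : ∀ i, s i < m) (N i : ℕ) :
    (∑ l ∈ range N, s (i + l) * m ^ l) / m + s (i + N) * (m ^ N / m) =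
      ∑ l ∈ range N, s (i + 1 + l) * m ^ l := by
  rcases N with _ | N
  · have : 1 / m = 0 := Nat.div_eq_of_lt (by omega)
    simp [this]
  · rw [sum_range_succ']
    have h1 : ∑ l ∈ range N, s (i + (l + 1)) * m ^ (l + 1) =
        m * ∑ l ∈ range N, s (i + 1 + l) * m ^ l := by
      rw [mul_sum]
      refine sum_congr rfl fun l _ => ?_
      rw [show i + (l + 1) = i + 1 + l by omega, pow_succ]
      ring
    rw [h1, pow_zero, mul_one, Nat.add_zero i, Nat.mul_add_div (by omega),
      Nat.div_eq_of_lt (hs i), Nat.add_zero, sum_range_succ, pow_succ,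
      Nat.mul_div_cancel _ (by omega), show i + (N + 1) = i + 1 + N by omega]

/-- If `Delta0 = E2Star`, the terms of quadratic recurrences are definable: the code
`z = ∑ l < N, s (i + l) * m ^ l < m ^ N ≤ B` of `N` successive terms is computed by limited recursion. -/
theorem quadRec_of_eq {m k : ℕ} (hm : 2 ≤ m)
    (H : ∀ (n : ℕ) (R : (Fin n → ℕ) → Prop), E2Star n R → Delta0 n R) : QuadRec m k := by
  intro n N B x t a b c s hN hB hx ht ha hb hc hNB hab hs0 hsr
  have hm0 : 0 < m := by omega
  have hslt : ∀ v i, s v i < m := by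
    intro v i
    rcases Nat.lt_or_ge i (N v) with h | h
    · rw [hs0 v i h]
      exact Nat.mod_lt _ hm0
    · obtain ⟨j, rfl⟩ := Nat.exists_eq_add_of_le' h
      rw [hsr]
      exact Nat.mod_lt _ hm0
  let P : ℕ → (Fin n → ℕ) → ℕ := fun z v =>
    z / m + (∑ j, c j v * dg m z (a j v) * dg m z (b j v)) % m * (m ^ N v / m)
  let S : (Fin n → ℕ) → ℕ := fun v => x v % m ^ N v
  have hpow : E2 n (fun v => m ^ N v) := conv_powN hm hN.e2 hB.e2 hNB
  have hP : E2 (n + 1) (fun w => P (w 0) (fun i => w i.succ)) := by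
    refine ((E2.proj 0).div (E2.const m)).add (((conv_sum univ fun j => ?_).mod (E2.const m)).mul
      (hpow.weak.div (E2.const m)))
    exact ((hc j).e2.weak.mul (conv_dg m (E2.proj 0) (ha j).e2.weak)).mul
      (conv_dg m (E2.proj 0) (hb j).e2.weak)
  have hS : E2 n S := hx.e2.mod hpow
  have hcode : ∀ v t, (fun z => P z v)^[t] (S v) = ∑ l ∈ range (N v), s v (t + l) * m ^ l := by
    intro v t
    induction t with
    | zero =>
      have hlt : x v % m ^ N v < m ^ N v := Nat.mod_lt _ (pow_pos hm0 _)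
      show x v % m ^ N v = _
      rw [← Pool.Agent.GAvg.sum_dig hlt]
      refine sum_congr rfl fun l hl => ?_
      have hl' := mem_range.1 hl
      rw [Nat.zero_add, hs0 v l hl']
      unfold dg dig
      congr 1
      obtain ⟨d, hd⟩ := Nat.exists_eq_add_of_lt hl'
      rw [hd, show l + d + 1 = l + (d + 1) by omega, pow_add, Nat.mod_mul_right_div_self,
        pow_succ, mul_comm (m ^ d) m, Nat.mod_mul_right_mod]
    | succ t ih =>
      rw [Function.iterate_succ_apply', ih]
      have hdg : ∀ i, i < N v → dg m (∑ l ∈ range (N v), s v (t + l) * m ^ l) i = s v (t + i) :=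
        fun i hi => dig_sum hm0 (fun l => s v (t + l)) (fun l _ => hslt v _) hi
      show (∑ l ∈ range (N v), s v (t + l) * m ^ l) / m + _ = _
      rw [← conv_step hm (hslt v) (N v) t, hsr v t]
      congr 3
      refine sum_congr rfl fun j _ => ?_
      rw [hdg _ (hab v j).1, hdg _ (hab v j).2]
  have hbd : ∀ t v, (fun z => P z v)^[t] (S v) ≤ B v := by
    intro t v
    rw [hcode]
    exact ((Pool.Agent.GAvg.sum_lt hm0 (fun l => s v (t + l)) fun l _ => hslt v _).le).trans (hNB v)
  have hit := E2.iterate hP hS hB.e2 hbd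
  have hfin : E2 n (fun v => (fun z => P z v)^[t v] (S v) % m) :=
    (E2.substFirst (F := fun t v => (fun z => P z v)^[t] (S v)) hit ht.e2).mod (E2.const m)
  have hres : (fun v => s v (t v)) = fun v => (fun z => P z v)^[t v] (S v) % m := by
    funext v
    rw [hcode]
    rcases Nat.eq_zero_or_pos (N v) with h | h
    · have hz : s v (t v + N v) = 0 := by
        rw [hsr, Finset.sum_eq_zero, Nat.zero_mod]
        intro j _
        have := (hab v j).1
        omega
      rw [h, Nat.add_zero] at hz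
      rw [h, hz]
      simp
    · have := dig_sum hm0 (m := N v) (fun l => s v (t v + l)) (fun l _ => hslt v _) h
      simp only [dig, pow_zero, Nat.div_one, Nat.add_zero] at this
      exact this.symm
  rw [hres]
  exact e2_dfun H hfin

end Pool.Agent.H80Q
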