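import Mathlib

/-!
# A queue automaton as a quadratic recurrence (combinatorial core)

Block `j` of the sequence has length `2 ^ (Q + 5)`; the cells of a block are at the offsets
`2 ^ τ`, `τ < Q + 4`: two cells `1`, the queue digit, a flag, and the indicator functions of the
`Q` states. The offsets form a Sidon set modulo the length of a block, so a product of two
different cells of a block vanishes when it is read at a wrong phase.
-/

set_option autoImplicit false

namespace Pool.Agent.H80Q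

open Finset

theorem two_pow_add (n : ℕ) : ∀ x d c y : ℕ, x + d + c + y ≤ n → 2 ^ x + 2 ^ d = 2 ^ c + 2 ^ y →
    x ≠ y → x = c := by
  induction n with
  | zero =>
    intro x d c y h _ hxy
    omega
  | succ n ih =>
    intro x d c y h he hxy
    have hp : ∀ k : ℕ, k = 0 ∨ ∃ l, k = l + 1 := fun k => by
      rcases k with _ | l
      · exact Or.inl rfl
      · exact Or.inr ⟨l, rfl⟩
    have pos : ∀ k : ℕ, 0 < 2 ^ k := fun k => by positivity
    rcases hp x with rfl | ⟨x', rfl⟩ <;> rcases hp d with rfl | ⟨d', rfl⟩ <;>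
      rcases hp c with rfl | ⟨c', rfl⟩ <;> rcases hp y with rfl | ⟨y', rfl⟩ <;>
      simp only [pow_zero, pow_succ] at he
    · rfl
    · rfl
    · exact absurd rfl hxy
    · have := pos c'
      have := pos y'
      omega
    · rfl
    · rfl
    · exact absurd rfl hxy
    · omega
    · omega
    · have h1 : 2 ^ x' = 2 ^ y' := by omega
      exact absurd (congrArg (· + 1) (Nat.pow_right_injective le_rfl h1)) hxy
    · have h1 : 2 ^ x' = 2 ^ c' := by omega
      exact congrArg (· + 1) (Nat.pow_right_injective le_rfl h1)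
    · omega
    · have := pos x'
      have := pos d'
      omega
    · omega
    · omega
    · have h1 : 2 ^ x' + 2 ^ d' = 2 ^ c' + 2 ^ y' := by omega
      have := ih x' d' c' y' (by omega) h1 (by omega)
      omega

variable {Q μ m : ℕ} {δ : ℕ → ℕ → ℕ × ℕ} {q W : ℕ → ℕ}

/-- the value of the cell `τ` of block `j` -/
def cell (μ : ℕ) (q W : ℕ → ℕ) (j τ : ℕ) : ℕ :=
  if τ < 2 then 1
  else if τ = 2 then (if j < μ then W j else W (j - μ))
  else if τ = 3 then (if j < μ then 1 else 0)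
  else if j < μ then 0 else if q (j - μ) + 4 = τ then 1 else 0

/-- the sequence -/
def seq (Q μ : ℕ) (q W : ℕ → ℕ) (i : ℕ) : ℕ :=
  ∑ τ ∈ range (Q + 4), if i % 2 ^ (Q + 5) = 2 ^ τ then cell μ q W (i / 2 ^ (Q + 5)) τ else 0

/-- the position of a cell relative to the position of the cell `τ` -/
def tap (Q μ τ x : ℕ) : ℕ := (if τ = 2 then 1 else μ) * 2 ^ (Q + 5) + 2 ^ x - 2 ^ τ

/-- the monomials -/
abbrev Mon (Q : ℕ) : Type := Fin (Q + 4) × (Bool ⊕ Fin Q × Bool)

/-- the two cells of a monomial -/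
def mx : {Q : ℕ} → Mon Q → ℕ × ℕ
  | _, (_, .inl false) => (0, 1)
  | _, (_, .inl true) => (3, 2)
  | _, (_, .inr (c, false)) => (c + 4, 0)
  | _, (_, .inr (c, true)) => (c + 4, 2)

/-- `1` if the state `c` goes to `τ - 4` when it reads `a` -/
def go (δ : ℕ → ℕ → ℕ × ℕ) (c a τ : ℕ) : ℕ := if (δ c a).1 + 4 = τ then 1 else 0

/-- the coefficient of a monomial -/
def mc (m : ℕ) (δ : ℕ → ℕ → ℕ × ℕ) : {Q : ℕ} → Mon Q → ℕ
  | _, (τ, .inl false) => if (τ : ℕ) < 2 then 1 else 0
  | _, (τ, .inl true) => if (τ : ℕ) = 2 then 1 else 0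
  | _, (τ, .inr (c, false)) => if (τ : ℕ) = 2 then (δ c 0).2 else
      if 4 ≤ (τ : ℕ) then go δ c 0 τ else 0
  | _, (τ, .inr (c, true)) => if (τ : ℕ) = 2 then (δ c 1).2 + m - (δ c 0).2 else
      if 4 ≤ (τ : ℕ) then go δ c 1 τ + m - go δ c 0 τ else 0

theorem mx_ne {Q : ℕ} (M : Mon Q) : (mx M).1 ≠ (mx M).2 := by
  rcases M with ⟨τ, (_ | _) | ⟨c, (_ | _)⟩⟩ <;> simp only [mx] <;> omega

theorem mx_lt {Q : ℕ} (M : Mon Q) : (mx M).1 < Q + 4 ∧ (mx M).2 < Q + 4 := by
  rcases M with ⟨τ, (_ | _) | ⟨c, (_ | _)⟩⟩ <;> simp only [mx] <;> omega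

theorem two_pow_lt_block {Q x : ℕ} (hx : x < Q + 4) : 2 * 2 ^ x < 2 ^ (Q + 5) := by
  have h1 : 2 ^ (x + 2) ≤ 2 ^ (Q + 5) := Nat.pow_le_pow_right (by norm_num) (by omega)
  have h2 : 0 < 2 ^ x := by positivity
  rw [pow_add] at h1
  omega

theorem seq_at {j r : ℕ} (hr : r < 2 ^ (Q + 5)) :
    seq Q μ q W (j * 2 ^ (Q + 5) + r) =
      ∑ τ ∈ range (Q + 4), if r = 2 ^ τ then cell μ q W j τ else 0 := by
  have h1 : (j * 2 ^ (Q + 5) + r) % 2 ^ (Q + 5) = r := by
    rw [mul_comm, Nat.mul_add_mod, Nat.mod_eq_of_lt hr]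
  have h2 : (j * 2 ^ (Q + 5) + r) / 2 ^ (Q + 5) = j := by
    rw [mul_comm, Nat.mul_add_div (by positivity), Nat.div_eq_of_lt hr, add_zero]
  rw [seq, h1, h2]

theorem seq_cell {j τ : ℕ} (hτ : τ < Q + 4) :
    seq Q μ q W (j * 2 ^ (Q + 5) + 2 ^ τ) = cell μ q W j τ := by
  rw [seq_at (by have := two_pow_lt_block hτ; omega), sum_eq_single_of_mem τ (mem_range.2 hτ)]
  · rw [if_pos rfl]
  · intro b _ hb
    rw [if_neg]
    intro h
    exact hb (Nat.pow_right_injective le_rfl h).symm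

theorem seq_ne_zero {u : ℕ} (h : seq Q μ q W u ≠ 0) : ∃ c < Q + 4, u % 2 ^ (Q + 5) = 2 ^ c := by
  obtain ⟨c, hc, h1⟩ := exists_ne_zero_of_sum_ne_zero h
  refine ⟨c, mem_range.1 hc, ?_⟩
  by_contra h2
  exact h1 (if_neg h2)

/-- A product of two different cells vanishes at a wrong phase. -/
theorem phase (hμ : 1 ≤ μ) {i τ x y : ℕ} (hτ : τ < Q + 4) (hx : x < Q + 4) (hy : y < Q + 4)
    (hxy : x ≠ y) (h1 : seq Q μ q W (i + tap Q μ τ x) ≠ 0)
    (h2 : seq Q μ q W (i + tap Q μ τ y) ≠ 0) : i % 2 ^ (Q + 5) = 2 ^ τ := by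
  obtain ⟨c, hc, hc'⟩ := seq_ne_zero h1
  obtain ⟨d, hd, hd'⟩ := seq_ne_zero h2
  have bτ := two_pow_lt_block hτ
  have bx := two_pow_lt_block hx
  have by' := two_pow_lt_block hy
  have bc := two_pow_lt_block hc
  have bd := two_pow_lt_block hd
  set ℓ := 2 ^ (Q + 5) with hℓ
  have hlag : ∃ g, (if τ = 2 then 1 else μ) = g + 1 := ⟨(if τ = 2 then 1 else μ) - 1, by
    split_ifs <;> omega⟩
  obtain ⟨g, hg⟩ := hlag
  have e1 : i + tap Q μ τ x + 2 ^ τ = i + 2 ^ x + (g + 1) * ℓ := by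
    unfold tap
    rw [hg, ← hℓ]
    have : ℓ ≤ (g + 1) * ℓ := Nat.le_mul_of_pos_left _ (by omega)
    omega
  have e2 : i + tap Q μ τ y + 2 ^ τ = i + 2 ^ y + (g + 1) * ℓ := by
    unfold tap
    rw [hg, ← hℓ]
    have : ℓ ≤ (g + 1) * ℓ := Nat.le_mul_of_pos_left _ (by omega)
    omega
  have m1 : 2 ^ c + 2 ^ τ ≡ i + 2 ^ x [MOD ℓ] := by
    have h3 : i + tap Q μ τ x ≡ 2 ^ c [MOD ℓ] := by
      unfold Nat.ModEq
      rw [hc', Nat.mod_eq_of_lt (by omega)]
    have h4 := (h3.symm.add_right (2 ^ τ))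
    rw [e1] at h4
    refine h4.trans ?_
    unfold Nat.ModEq
    rw [Nat.add_mul_mod_self_right]
  have m2 : 2 ^ d + 2 ^ τ ≡ i + 2 ^ y [MOD ℓ] := by
    have h3 : i + tap Q μ τ y ≡ 2 ^ d [MOD ℓ] := by
      unfold Nat.ModEq
      rw [hd', Nat.mod_eq_of_lt (by omega)]
    have h4 := (h3.symm.add_right (2 ^ τ))
    rw [e2] at h4
    refine h4.trans ?_
    unfold Nat.ModEq
    rw [Nat.add_mul_mod_self_right]
  have m3 : 2 ^ x + 2 ^ d ≡ 2 ^ c + 2 ^ y [MOD ℓ] := by
    have h3 : i + 2 ^ τ + (2 ^ x + 2 ^ d) ≡ i + 2 ^ τ + (2 ^ c + 2 ^ y) [MOD ℓ] := by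
      calc i + 2 ^ τ + (2 ^ x + 2 ^ d) = (i + 2 ^ x) + (2 ^ d + 2 ^ τ) := by ring
        _ ≡ (2 ^ c + 2 ^ τ) + (i + 2 ^ y) [MOD ℓ] := m1.symm.add m2
        _ = i + 2 ^ τ + (2 ^ c + 2 ^ y) := by ring
    exact Nat.ModEq.add_left_cancel' _ h3
  have m4 : 2 ^ x + 2 ^ d = 2 ^ c + 2 ^ y := by
    have h3 := m3
    unfold Nat.ModEq at h3
    rwa [Nat.mod_eq_of_lt (by omega), Nat.mod_eq_of_lt (by omega)] at h3
  have m5 : x = c := two_pow_add _ x d c y le_rfl m4 hxy
  rw [m5] at m1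
  have m6 : 2 ^ τ ≡ i [MOD ℓ] := by
    have h3 : 2 ^ c + 2 ^ τ ≡ 2 ^ c + i [MOD ℓ] := by
      rw [add_comm (2 ^ c) i]
      exact m1
    exact Nat.ModEq.add_left_cancel' _ h3
  have h3 := m6.symm
  unfold Nat.ModEq at h3
  rwa [Nat.mod_eq_of_lt (show 2 ^ τ < ℓ by omega)] at h3

/-- the cells read at the right phase -/
theorem seq_tap (hμ : 1 ≤ μ) {j τ x : ℕ} (hτ : τ < Q + 4) (hx : x < Q + 4) :
    seq Q μ q W (j * 2 ^ (Q + 5) + 2 ^ τ + tap Q μ τ x) =
      cell μ q W (j + if τ = 2 then 1 else μ) x := by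
  have bτ := two_pow_lt_block hτ
  have h1 : j * 2 ^ (Q + 5) + 2 ^ τ + tap Q μ τ x =
      (j + if τ = 2 then 1 else μ) * 2 ^ (Q + 5) + 2 ^ x := by
    have hlag : ∃ g, (if τ = 2 then 1 else μ) = g + 1 := ⟨(if τ = 2 then 1 else μ) - 1, by
      split_ifs <;> omega⟩
    obtain ⟨g, hg⟩ := hlag
    unfold tap
    rw [hg, Nat.add_mul j (g + 1)]
    have : 2 ^ (Q + 5) ≤ (g + 1) * 2 ^ (Q + 5) := Nat.le_mul_of_pos_left _ (by omega)
    have hx0 : 0 < 2 ^ x := by positivity
    omega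
  rw [h1, seq_cell hx]

theorem cell_le_one (hW : ∀ t, W t < 2) (j τ : ℕ) : cell μ q W j τ ≤ 1 := by
  unfold cell
  have h1 := hW j
  have h2 := hW (j - μ)
  split_ifs <;> omega

/-- the sum of the monomials of the cell `τ` -/
def msum (m : ℕ) (δ : ℕ → ℕ → ℕ × ℕ) (Q : ℕ) (τ : ℕ) (v : ℕ → ℕ) : ℕ :=
  (if τ < 2 then 1 else 0) * v 0 * v 1 + (if τ = 2 then 1 else 0) * v 3 * v 2 +
    ∑ c ∈ range Q, ((if τ = 2 then (δ c 0).2 else if 4 ≤ τ then go δ c 0 τ else 0) *
      v (c + 4) * v 0 +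
      (if τ = 2 then (δ c 1).2 + m - (δ c 0).2 else
        if 4 ≤ τ then go δ c 1 τ + m - go δ c 0 τ else 0) * v (c + 4) * v 2)

theorem sum_mon (f : ℕ → ℕ → ℕ) :
    ∑ M : Mon Q, mc m δ M * f M.1 (mx M).1 * f M.1 (mx M).2 =
      ∑ τ ∈ range (Q + 4), msum m δ Q τ (f τ) := by
  rw [Fintype.sum_prod_type, ← Fin.sum_univ_eq_sum_range (fun τ => msum m δ Q τ (f τ)) (Q + 4)]
  refine sum_congr rfl fun τ _ => ?_
  rw [Fintype.sum_sum_type, Fintype.sum_prod_type, msum, Fintype.sum_bool]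
  simp only [Fintype.sum_bool]
  rw [← Fin.sum_univ_eq_sum_range (fun c => (if (τ : ℕ) = 2 then (δ c 0).2 else
      if 4 ≤ (τ : ℕ) then go δ c 0 τ else 0) * f τ (c + 4) * f τ 0 +
      (if (τ : ℕ) = 2 then (δ c 1).2 + m - (δ c 0).2 else
        if 4 ≤ (τ : ℕ) then go δ c 1 τ + m - go δ c 0 τ else 0) * f τ (c + 4) * f τ 2) Q]
  congr 1
  · rw [add_comm]
    rfl
  · refine sum_congr rfl fun c _ => ?_
    rw [add_comm]
    rfl

theorem cell_zero (b : ℕ) : cell μ q W b 0 = 1 := rfl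

theorem cell_one (b : ℕ) : cell μ q W b 1 = 1 := rfl

theorem cell_two (b : ℕ) : cell μ q W b 2 = if b < μ then W b else W (b - μ) := rfl

theorem cell_three (b : ℕ) : cell μ q W b 3 = if b < μ then 1 else 0 := rfl

theorem cell_four (b c : ℕ) :
    cell μ q W b (c + 4) = if b < μ then 0 else if q (b - μ) = c then 1 else 0 := by
  unfold cell
  rw [if_neg (by omega), if_neg (by omega), if_neg (by omega)]
  simp only [Nat.add_right_cancel_iff]

theorem msum_lt {b τ : ℕ} (hb : b < μ) : msum m δ Q τ (cell μ q W b) =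
    (if τ < 2 then 1 else 0) + (if τ = 2 then 1 else 0) * W b := by
  unfold msum
  simp only [cell_zero, cell_one, cell_two, cell_three, cell_four, if_pos hb, mul_one, mul_zero,
    zero_mul, add_zero, sum_const_zero]

theorem msum_ge {b τ : ℕ} (hq : ∀ t, q t < Q) (hb : ¬ b < μ) :
    msum m δ Q τ (cell μ q W b) = (if τ < 2 then 1 else 0) +
      ((if τ = 2 then (δ (q (b - μ)) 0).2 else
        if 4 ≤ τ then go δ (q (b - μ)) 0 τ else 0) +
      (if τ = 2 then (δ (q (b - μ)) 1).2 + m - (δ (q (b - μ)) 0).2 else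
        if 4 ≤ τ then go δ (q (b - μ)) 1 τ + m - go δ (q (b - μ)) 0 τ else 0) * W (b - μ)) := by
  unfold msum
  simp only [cell_zero, cell_one, cell_two, cell_three, cell_four, if_neg hb, mul_one, mul_zero,
    zero_mul, add_zero]
  rw [sum_eq_single_of_mem (q (b - μ)) (mem_range.2 (hq _))]
  · rw [if_pos rfl, mul_one, mul_one]
  · intro c _ hc
    rw [if_neg hc.symm, mul_zero, mul_zero, zero_mul, add_zero]

/-- The sequence satisfies the quadratic recurrence. -/
theorem seq_rec (hm : 2 ≤ m) (hμ : 1 ≤ μ) (hq : ∀ t, q t < Q) (hW : ∀ t, W t < 2)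
    (hδ : ∀ c a, c < Q → a < 2 → (δ c a).2 < 2)
    (hstep : ∀ t, δ (q t) (W t) = (q (t + 1), W (t + μ))) (i : ℕ) :
    seq Q μ q W (i + (μ + 1) * 2 ^ (Q + 5)) =
      (∑ M : Mon Q, mc m δ M * seq Q μ q W (i + tap Q μ M.1 (mx M).1) *
        seq Q μ q W (i + tap Q μ M.1 (mx M).2)) % m := by
  set ℓ := 2 ^ (Q + 5) with hℓ
  have hℓ0 : 0 < ℓ := by rw [hℓ]; positivity
  obtain ⟨j, r, hr, rfl⟩ : ∃ j r, r < ℓ ∧ i = j * ℓ + r :=
    ⟨i / ℓ, i % ℓ, Nat.mod_lt _ hℓ0, by rw [mul_comm]; exact (Nat.div_add_mod i ℓ).symm⟩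
  have hpos : j * ℓ + r + (μ + 1) * ℓ = (j + μ + 1) * ℓ + r := by ring
  rw [hpos, seq_at hr]
  have hmod : (j * ℓ + r) % ℓ = r := by
    rw [mul_comm, Nat.mul_add_mod, Nat.mod_eq_of_lt hr]
  by_cases hex : ∃ τ < Q + 4, r = 2 ^ τ
  · obtain ⟨τ, hτ, rfl⟩ := hex
    have hL : (∑ x ∈ range (Q + 4), if (2 : ℕ) ^ τ = 2 ^ x then cell μ q W (j + μ + 1) x else 0) =
        cell μ q W (j + μ + 1) τ := by
      rw [sum_eq_single_of_mem τ (mem_range.2 hτ), if_pos rfl]
      intro b _ hb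
      rw [if_neg]
      intro h
      exact hb (Nat.pow_right_injective le_rfl h).symm
    rw [hL]
    have hR : ∑ M : Mon Q, mc m δ M * seq Q μ q W (j * ℓ + 2 ^ τ + tap Q μ M.1 (mx M).1) *
        seq Q μ q W (j * ℓ + 2 ^ τ + tap Q μ M.1 (mx M).2) =
        msum m δ Q τ (fun x => cell μ q W (j + if τ = 2 then 1 else μ) x) := by
      have h1 : ∀ M : Mon Q, mc m δ M * seq Q μ q W (j * ℓ + 2 ^ τ + tap Q μ M.1 (mx M).1) *
          seq Q μ q W (j * ℓ + 2 ^ τ + tap Q μ M.1 (mx M).2) = mc m δ M *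
          (fun (σ x : ℕ) => if σ = τ then cell μ q W (j + if τ = 2 then 1 else μ) x else 0)
            M.1 (mx M).1 *
          (fun (σ x : ℕ) => if σ = τ then cell μ q W (j + if τ = 2 then 1 else μ) x else 0)
            M.1 (mx M).2 := by
        intro M
        obtain ⟨hx, hy⟩ := mx_lt M
        by_cases hM : (M.1 : ℕ) = τ
        · dsimp only
          rw [if_pos hM, if_pos hM, hM, hℓ, seq_tap hμ hτ hx, seq_tap hμ hτ hy]
        · dsimp only
          rw [if_neg hM, if_neg hM, mul_zero]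
          by_contra hne
          have h2 : seq Q μ q W (j * ℓ + 2 ^ τ + tap Q μ M.1 (mx M).1) ≠ 0 := by
            intro h0
            rw [h0, mul_zero, zero_mul] at hne
            exact hne rfl
          have h3 : seq Q μ q W (j * ℓ + 2 ^ τ + tap Q μ M.1 (mx M).2) ≠ 0 := by
            intro h0
            rw [h0, mul_zero] at hne
            exact hne rfl
          have h4 := phase hμ M.1.2 hx hy (mx_ne M) h2 h3
          rw [← hℓ, hmod] at h4
          exact hM (Nat.pow_right_injective le_rfl h4).symm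
      refine (sum_congr rfl fun M _ => h1 M).trans ((sum_mon (m := m) (δ := δ) (fun (σ x : ℕ) =>
        if σ = τ then cell μ q W (j + if τ = 2 then 1 else μ) x else 0)).trans ?_)
      rw [sum_eq_single_of_mem τ (mem_range.2 hτ)]
      · simp only [if_true]
      · intro b _ hb
        unfold msum
        simp [hb]
    rw [hR]
    rcases Nat.lt_or_ge τ 2 with h2 | h2
    · -- the constant cells
      have e1 : cell μ q W (j + μ + 1) τ = 1 := by
        unfold cell
        rw [if_pos h2]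
      have h3 : τ ≠ 2 := by omega
      have h4 : ¬ 4 ≤ τ := by omega
      rw [e1]
      by_cases hb : j + (if τ = 2 then 1 else μ) < μ
      · rw [msum_lt hb, if_pos h2, if_neg h3, zero_mul, add_zero, Nat.mod_eq_of_lt (by omega)]
      · rw [msum_ge hq hb, if_pos h2]
        simp only [if_neg h3, if_neg h4, zero_mul, add_zero]
        rw [Nat.mod_eq_of_lt (by omega)]
    rcases Nat.eq_or_lt_of_le h2 with h2 | h2
    · -- the queue digit
      subst h2
      have e1 : cell μ q W (j + μ + 1) 2 = W (j + 1) := by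
        rw [cell_two, if_neg (by omega)]
        congr 1
        omega
      rw [e1]
      simp only [if_true]
      have hWm : W (j + 1) < m := lt_of_lt_of_le (hW _) hm
      by_cases hb : j + 1 < μ
      · rw [msum_lt hb, if_neg (by norm_num), if_pos rfl, one_mul, zero_add,
          Nat.mod_eq_of_lt hWm]
      · rw [msum_ge hq hb]
        simp only [if_neg (show ¬ (2 : ℕ) < 2 by norm_num), if_true, zero_add]
        have h3 := hstep (j + 1 - μ)
        have e2 : j + 1 - μ + μ = j + 1 := by omega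
        rw [e2] at h3
        have hw := hW (j + 1 - μ)
        have hd0 := hδ (q (j + 1 - μ)) 0 (hq _) (by norm_num)
        have hd1 := hδ (q (j + 1 - μ)) 1 (hq _) (by norm_num)
        rcases Nat.lt_or_ge (W (j + 1 - μ)) 1 with h4 | h4
        · have h5 : W (j + 1 - μ) = 0 := by omega
          rw [h5] at h3 ⊢
          rw [mul_zero, add_zero, h3, Nat.mod_eq_of_lt hWm]
        · have h5 : W (j + 1 - μ) = 1 := by omega
          rw [h5] at h3 ⊢
          rw [mul_one]
          have e3 : (δ (q (j + 1 - μ)) 0).2 + ((δ (q (j + 1 - μ)) 1).2 + m -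
              (δ (q (j + 1 - μ)) 0).2) = (δ (q (j + 1 - μ)) 1).2 + m := by omega
          rw [e3, Nat.add_mod_right, h3, Nat.mod_eq_of_lt hWm]
    rcases Nat.lt_or_ge τ 4 with h4 | h4
    · -- the flag
      obtain rfl : τ = 3 := by omega
      have hb : ¬ j + (if (3 : ℕ) = 2 then 1 else μ) < μ := by
        rw [if_neg (by norm_num)]
        omega
      rw [cell_three, if_neg (by omega), msum_ge hq hb, if_neg (by norm_num),
        if_neg (by norm_num), if_neg (by norm_num), if_neg (by norm_num), if_neg (by norm_num),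
        zero_mul, add_zero, add_zero, Nat.zero_mod]
    · -- the indicator functions of the states
      obtain ⟨c, rfl⟩ : ∃ c, τ = c + 4 := ⟨τ - 4, by omega⟩
      have hb : ¬ j + (if c + 4 = 2 then 1 else μ) < μ := by
        rw [if_neg (by omega)]
        omega
      have e0 : j + (if c + 4 = 2 then 1 else μ) - μ = j := by
        rw [if_neg (by omega)]
        omega
      have e1 : cell μ q W (j + μ + 1) (c + 4) = if q (j + 1) = c then 1 else 0 := by
        rw [cell_four, if_neg (by omega)]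
        have e2 : j + μ + 1 - μ = j + 1 := by omega
        rw [e2]
      rw [e1, msum_ge hq hb, e0, if_neg (show ¬ c + 4 < 2 by omega)]
      simp only [if_neg (show ¬ c + 4 = 2 by omega), if_pos (show 4 ≤ c + 4 by omega), zero_add]
      have h3 := hstep j
      have hw := hW j
      have hgo : ∀ a, go δ (q j) a (c + 4) = if (δ (q j) a).1 = c then 1 else 0 := by
        intro a
        unfold go
        simp only [Nat.add_right_cancel_iff]
      have hle : ∀ a, go δ (q j) a (c + 4) ≤ 1 := by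
        intro a
        rw [hgo]
        split_ifs <;> omega
      have hlt : (if q (j + 1) = c then 1 else 0) < m := by split_ifs <;> omega
      rcases Nat.lt_or_ge (W j) 1 with h5 | h5
      · have h6 : W j = 0 := by omega
        rw [h6] at h3 ⊢
        rw [mul_zero, add_zero, hgo, h3, Nat.mod_eq_of_lt hlt]
      · have h6 : W j = 1 := by omega
        rw [h6] at h3 ⊢
        rw [mul_one]
        have h7 := hle 0
        have e3 : go δ (q j) 0 (c + 4) + (go δ (q j) 1 (c + 4) + m - go δ (q j) 0 (c + 4)) =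
            go δ (q j) 1 (c + 4) + m := by omega
        rw [e3, Nat.add_mod_right, hgo, h3, Nat.mod_eq_of_lt hlt]
  · have h0 : (∑ x ∈ range (Q + 4), if r = 2 ^ x then cell μ q W (j + μ + 1) x else 0) = 0 := by
      refine sum_eq_zero fun x hx => ?_
      rw [if_neg]
      intro h
      exact hex ⟨x, mem_range.1 hx, h⟩
    rw [h0, sum_eq_zero, Nat.zero_mod]
    intro M _
    obtain ⟨hx, hy⟩ := mx_lt M
    by_contra hne
    have h2 : seq Q μ q W (j * ℓ + r + tap Q μ M.1 (mx M).1) ≠ 0 := by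
      intro h0
      rw [h0, mul_zero, zero_mul] at hne
      exact hne rfl
    have h3 : seq Q μ q W (j * ℓ + r + tap Q μ M.1 (mx M).2) ≠ 0 := by
      intro h0
      rw [h0, mul_zero] at hne
      exact hne rfl
    have h4 := phase hμ M.1.2 hx hy (mx_ne M) h2 h3
    rw [← hℓ, hmod] at h4
    exact hex ⟨M.1, M.1.2, h4⟩

end Pool.Agent.H80Q
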