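import Pool.Agent.Grz.E2
import Pool.Agent.LinU.Defs

/-!
# Quadratic recurrences
-/

set_option autoImplicit false

namespace Pool.Agent.H80Q

open Finset Pool.Agent.Grz Pool.Agent.LinU

/-- The terms of the sequences with `N` given first terms, the digits of `x` to the base `m`, and
`s (i + N) = ∑ j, c j * s (i + a j) * s (i + b j)` modulo `m`, a sum of `k` products, are
definable by bounded formulas; here `N`, `x`, `a j`, `b j`, `c j` are any functions in `DFun`, and
`m ^ N` is bounded by a function in `DFun`. -/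
def QuadRec (m k : ℕ) : Prop :=
  ∀ (n : ℕ) (N B x t : (Fin n → ℕ) → ℕ) (a b c : Fin k → (Fin n → ℕ) → ℕ)
    (s : (Fin n → ℕ) → ℕ → ℕ), DFun n N → DFun n B → DFun n x → DFun n t →
    (∀ j, DFun n (a j)) → (∀ j, DFun n (b j)) → (∀ j, DFun n (c j)) →
    (∀ v, m ^ N v ≤ B v) → (∀ v j, a j v < N v ∧ b j v < N v) →
    (∀ v i, i < N v → s v i = dg m (x v) i) →
    (∀ v i, s v (i + N v) = (∑ j, c j v * s v (i + a j v) * s v (i + b j v)) % m) →
    DFun n (fun v => s v (t v))

end Pool.Agent.H80Q
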