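import Pool.Agent.H80Q.Defs

/-!
# Quadratic recurrences with another index set
-/

set_option autoImplicit false

namespace Pool.Agent.H80Q

open Finset Pool.Agent.Grz Pool.Agent.LinU

theorem QuadRec.index {m k : ℕ} (H : QuadRec m k) {ι : Type} [Fintype ι] [Nonempty ι]
    (hι : Fintype.card ι ≤ k) {n : ℕ} {N B x t : (Fin n → ℕ) → ℕ}
    {a b c : ι → (Fin n → ℕ) → ℕ} {s : (Fin n → ℕ) → ℕ → ℕ} (hN : DFun n N) (hB : DFun n B)
    (hx : DFun n x) (ht : DFun n t) (ha : ∀ j, DFun n (a j)) (hb : ∀ j, DFun n (b j))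
    (hc : ∀ j, DFun n (c j)) (hNB : ∀ v, m ^ N v ≤ B v)
    (hab : ∀ v j, a j v < N v ∧ b j v < N v) (hs0 : ∀ v i, i < N v → s v i = dg m (x v) i)
    (hs : ∀ v i, s v (i + N v) = (∑ j, c j v * s v (i + a j v) * s v (i + b j v)) % m) :
    DFun n (fun v => s v (t v)) := by
  classical
  obtain ⟨i₀⟩ := ‹Nonempty ι›
  set e := Fintype.equivFin ι with he
  have hext : ∀ f : ι → (Fin n → ℕ) → ℕ, (∀ j, DFun n (f j)) → ∀ j : Fin k,
      DFun n (fun v => if h : (j : ℕ) < Fintype.card ι then f (e.symm ⟨j, h⟩) v else 0) := by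
    intro f hf j
    by_cases h : (j : ℕ) < Fintype.card ι
    · simp only [dif_pos h]
      exact hf _
    · simp only [dif_neg h]
      exact DFun.const 0
  refine H n N B x t
    (fun j v => if h : (j : ℕ) < Fintype.card ι then a (e.symm ⟨j, h⟩) v else 0)
    (fun j v => if h : (j : ℕ) < Fintype.card ι then b (e.symm ⟨j, h⟩) v else 0)
    (fun j v => if h : (j : ℕ) < Fintype.card ι then c (e.symm ⟨j, h⟩) v else 0)
    s hN hB hx ht (hext a ha) (hext b hb) (hext c hc) hNB ?_ hs0 ?_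
  · intro v j
    have h0 : 0 < N v := lt_of_le_of_lt (Nat.zero_le _) (hab v i₀).1
    by_cases h : (j : ℕ) < Fintype.card ι
    · simp only [dif_pos h]
      exact hab v _
    · simp only [dif_neg h]
      exact ⟨h0, h0⟩
  · intro v i
    rw [hs v i]
    congr 1
    refine Fintype.sum_of_injective (fun i : ι => (⟨e i, lt_of_lt_of_le (e i).2 hι⟩ : Fin k)) ?_
      _ _ ?_ ?_
    · intro i j h
      exact e.injective (Fin.ext (Fin.mk.inj h))
    · intro j hj
      have h : ¬ (j : ℕ) < Fintype.card ι := by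
        intro h
        exact hj ⟨e.symm ⟨j, h⟩, Fin.ext (by simp)⟩
      rw [dif_neg h, zero_mul, zero_mul]
    · intro j
      have h : ((e j : Fin _) : ℕ) < Fintype.card ι := (e j).2
      dsimp only
      rw [dif_pos h, dif_pos h, dif_pos h]
      have h2 : e.symm ⟨((e j : Fin _) : ℕ), h⟩ = j := by simp
      rw [h2]

end Pool.Agent.H80Q
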