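import Pool.Agent.H80Q.Core
import Pool.Agent.PTr.ClkMain

/-!
# The run of a queue automaton as two sequences
-/

set_option autoImplicit false

namespace Pool.Agent.H80Q

open Finset Pool.Agent.PTr

/-- the configurations of the queue automaton -/
def conf (δ : ℕ → ℕ → ℕ × ℕ) (c₀ : ℕ) (l₀ : List ℕ) : ℕ → ℕ × List ℕ
  | 0 => (c₀, l₀)
  | t + 1 => match (conf δ c₀ l₀ t).2 with
    | [] => (conf δ c₀ l₀ t)
    | a :: l => ((δ (conf δ c₀ l₀ t).1 a).1, l ++ [(δ (conf δ c₀ l₀ t).1 a).2])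

/-- the state at the time `t` -/
def cq (δ : ℕ → ℕ → ℕ × ℕ) (c₀ : ℕ) (l₀ : List ℕ) (t : ℕ) : ℕ := (conf δ c₀ l₀ t).1

/-- the digit read at the time `t` -/
def cW (δ : ℕ → ℕ → ℕ × ℕ) (c₀ : ℕ) (l₀ : List ℕ) (t : ℕ) : ℕ := (conf δ c₀ l₀ t).2.headD 0

variable {δ : ℕ → ℕ → ℕ × ℕ} {c₀ : ℕ} {l₀ : List ℕ} {μ : ℕ}

theorem conf_succ {t : ℕ} {a : ℕ} {l : List ℕ} (h : (conf δ c₀ l₀ t).2 = a :: l) :
    conf δ c₀ l₀ (t + 1) = ((δ (cq δ c₀ l₀ t) a).1, l ++ [(δ (cq δ c₀ l₀ t) a).2]) := by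
  rw [conf, h]
  rfl

theorem conf_length (hl : l₀.length = μ) (t : ℕ) : (conf δ c₀ l₀ t).2.length = μ := by
  induction t with
  | zero => exact hl
  | succ t ih =>
    cases h : (conf δ c₀ l₀ t).2 with
    | nil =>
      rw [conf, h]
      exact ih
    | cons a l =>
      rw [conf_succ h, List.length_append, List.length_singleton, ← ih, h, List.length_cons]

theorem conf_cons (hμ : 1 ≤ μ) (hl : l₀.length = μ) (t : ℕ) :
    ∃ l, (conf δ c₀ l₀ t).2 = cW δ c₀ l₀ t :: l ∧ l.length + 1 = μ := by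
  have h1 := conf_length (δ := δ) (c₀ := c₀) hl t
  cases h : (conf δ c₀ l₀ t).2 with
  | nil =>
    rw [h] at h1
    simp at h1
    omega
  | cons a l =>
    refine ⟨l, ?_, ?_⟩
    · rw [cW, h]
      rfl
    · rw [h, List.length_cons] at h1
      exact h1

theorem conf_get (hμ : 1 ≤ μ) (hl : l₀.length = μ) : ∀ (i t : ℕ), i < μ →
    (conf δ c₀ l₀ t).2.getD i 0 = cW δ c₀ l₀ (t + i) := by
  intro i
  induction i with
  | zero =>
    intro t _
    obtain ⟨l, h, -⟩ := conf_cons (δ := δ) (c₀ := c₀) hμ hl t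
    rw [h]
    rfl
  | succ i ih =>
    intro t hi
    obtain ⟨l, h, h2⟩ := conf_cons (δ := δ) (c₀ := c₀) hμ hl t
    have h3 := ih (t + 1) (by omega)
    rw [conf_succ h, List.getD_append _ _ _ _ (by omega)] at h3
    rw [h, List.getD_cons_succ, h3]
    congr 1
    omega

theorem conf_step (hμ : 1 ≤ μ) (hl : l₀.length = μ) (t : ℕ) :
    δ (cq δ c₀ l₀ t) (cW δ c₀ l₀ t) = (cq δ c₀ l₀ (t + 1), cW δ c₀ l₀ (t + μ)) := by
  obtain ⟨l, h, h2⟩ := conf_cons (δ := δ) (c₀ := c₀) hμ hl t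
  have h3 := conf_get (δ := δ) (c₀ := c₀) hμ hl (μ - 1) (t + 1) (by omega)
  have h4 : t + 1 + (μ - 1) = t + μ := by omega
  rw [h4, conf_succ h, List.getD_append_right _ _ _ _ (by omega)] at h3
  have h5 : μ - 1 - l.length = 0 := by omega
  rw [h5] at h3
  refine Prod.ext ?_ ?_
  · change _ = (conf δ c₀ l₀ (t + 1)).1
    rw [conf_succ h]
  · rw [← h3]
    rfl

/-- the value of a word -/
theorem wval_eq (l : List ℕ) :
    wval 2 l = ∑ i ∈ range l.length, l.getD (l.length - 1 - i) 0 * 2 ^ i := by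
  induction l with
  | nil => rfl
  | cons a l ih =>
    rw [wval, List.length_cons, sum_range_succ, Nat.add_sub_cancel, Nat.sub_self,
      List.getD_cons_zero, add_comm, ih]
    congr 1
    refine sum_congr rfl fun i hi => ?_
    rw [mem_range] at hi
    have h1 : l.length - i = (l.length - 1 - i) + 1 := by omega
    rw [h1, List.getD_cons_succ]

/-- The run is the orbit of the map of the automaton. -/
theorem conf_orbit {P : List Instr} {K n : ℕ} (hP : ∀ i ∈ P, i.ok K P.length)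
    {st : ℕ × ℕ × ℕ} (hst : okst P K st) (hl : l₀.length = n + 1) (hb : ∀ b ∈ l₀, b < 2) (t : ℕ) :
    (pmapK P K 2 n)^[t] (num 2 (codest K st) l₀) =
        num 2 (cq (dltN P K 2) (codest K st) l₀ t) (conf (dltN P K 2) (codest K st) l₀ t).2 ∧
      (∃ st', okst P K st' ∧ codest K st' = cq (dltN P K 2) (codest K st) l₀ t) ∧
      ∀ b ∈ (conf (dltN P K 2) (codest K st) l₀ t).2, b < 2 := by
  induction t with
  | zero => exact ⟨rfl, ⟨st, hst, rfl⟩, hb⟩
  | succ t ih =>
    obtain ⟨h1, ⟨st', hst', hc⟩, h3⟩ := ih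
    obtain ⟨l, h, h2⟩ := conf_cons (δ := dltN P K 2) (c₀ := codest K st) (μ := n + 1)
      (by omega) hl t
    have hcod := coded (K := K) (s := 2) le_rfl hP
    have ha : cW (dltN P K 2) (codest K st) l₀ t < 2 := h3 _ (by rw [h]; exact List.mem_cons_self)
    have hl' : ∀ b ∈ l, b < 2 := fun b hb' => h3 b (by rw [h]; exact List.mem_cons_of_mem _ hb')
    have h4 := hcod.step hst' ha hl'
    have h5 := hcod.eq st' _ hst' ha
    have h6 := hcod.okδ st' _ hst' ha
    have hll : l.length = n := by omega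
    rw [hc] at h5
    refine ⟨?_, ⟨_, h6.1, ?_⟩, ?_⟩
    · rw [Function.iterate_succ_apply', h1, h, ← hc]
      unfold pmapK
      rw [← hll, h4, cq, conf_succ h, h5]
    · rw [cq, conf_succ h, h5]
    · intro b hb'
      rw [conf_succ h, h5] at hb'
      rcases List.mem_append.1 hb' with h7 | h7
      · exact hl' b h7
      · rw [List.mem_singleton] at h7
        rw [h7]
        exact h6.2

theorem dltN_lt {P : List Instr} {K : ℕ} (hP : ∀ i ∈ P, i.ok K P.length) (c a : ℕ)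
    (hc : c < P.length * (K + 1) * 2) (ha : a < 2) : (dltN P K 2 c a).2 < 2 := by
  refine (dlt_ok le_rfl hP (c / 2 / (K + 1), c / 2 % (K + 1), c % 2) a ⟨?_, ?_, ?_⟩ ha).2
  · rw [Nat.div_div_eq_div_mul]
    refine (Nat.div_lt_iff_lt_mul (by omega)).2 ?_
    calc c < P.length * (K + 1) * 2 := hc
      _ = P.length * (2 * (K + 1)) := by ring
  · exact Nat.lt_succ_iff.1 (Nat.mod_lt _ (by omega))
  · exact Nat.lt_succ_iff.1 (Nat.mod_lt _ (by omega))

/-- pigeonhole -/
theorem iterate_bound {X : Type*} (f : X → X) (x y : X) (g : X → ℕ) (C : ℕ)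
    (hg : ∀ t, g (f^[t] x) < C) (hinj : ∀ s t, g (f^[s] x) = g (f^[t] x) → f^[s] x = f^[t] x)
    (h : ∃ t, f^[t] x = y) : ∃ t, t ≤ C ∧ f^[t] x = y := by
  classical
  refine ⟨Nat.find h, ?_, Nat.find_spec h⟩
  by_contra hlt
  push Not at hlt
  obtain ⟨i, hi, j, hj, hij, he⟩ := Finset.exists_ne_map_eq_of_card_lt_of_maps_to
    (s := range (C + 1)) (t := range C) (f := fun t => g (f^[t] x))
    (by rw [card_range, card_range]; omega)
    (fun t _ => mem_coe.2 (mem_range.2 (hg t)))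
  have key : ∀ i j, i < j → j < C + 1 → g (f^[i] x) = g (f^[j] x) → False := by
    intro i j hij hj he
    have h1 := hinj i j he
    set T := Nat.find h with hT
    have h2 : f^[T - (j - i)] x = y := by
      have e1 : T - (j - i) = (T - j) + i := by omega
      have e2 : T = (T - j) + j := by omega
      rw [e1, Function.iterate_add_apply, h1, ← Function.iterate_add_apply, ← e2]
      exact Nat.find_spec h
    exact Nat.find_min h (m := T - (j - i)) (by omega) h2
  rw [mem_range] at hi hj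
  rcases Nat.lt_or_gt_of_ne hij with h1 | h1
  · exact key i j h1 hj he
  · exact key j i h1 hi he.symm

end Pool.Agent.H80Q
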