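import Pool.Agent.H80Q.Index
import Pool.Agent.H80Q.Run
import Pool.Agent.LinU.PD

/-!
# The sequence of a queue automaton is a quadratic recurrence with definable data
-/

set_option autoImplicit false

namespace Pool.Agent.H80Q

open Finset Pool.Agent.Grz Pool.Agent.GAvg Pool.Agent.PTr Pool.Agent.MTr Pool.Agent.LPC
open Pool.Agent.ECD Pool.Agent.LinU

/-- the length of the queue -/
def muf (p : ℕ) : ℕ := lg p + (1 - lg p)

theorem one_le_muf (p : ℕ) : 1 ≤ muf p := by
  unfold muf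
  omega

theorem muf_le (p : ℕ) : muf p ≤ lg p + 1 := by
  unfold muf
  omega

/-- the digits of `w`, the most significant one first -/
def bits (w μ : ℕ) : List ℕ := (List.range μ).map fun j => dg 2 w (μ - 1 - j)

theorem bits_length (w μ : ℕ) : (bits w μ).length = μ := by simp [bits]

theorem bits_lt (w μ : ℕ) : ∀ b ∈ bits w μ, b < 2 := by
  intro b hb
  obtain ⟨j, -, rfl⟩ := List.mem_map.1 hb
  exact Nat.mod_lt _ (by norm_num)

theorem bits_getD {w μ j : ℕ} (hj : j < μ) : (bits w μ).getD j 0 = dg 2 w (μ - 1 - j) := by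
  rw [bits, List.getD_eq_getElem _ _ (by simpa using hj), List.getElem_map, List.getElem_range]

variable (P : List Instr) (K : ℕ)

/-- the number of states -/
def qn : ℕ := P.length * (K + 1) * 2

/-- the states of the run -/
def qf (w p : ℕ) : ℕ → ℕ := cq (dltN P K 2) (codest K (0, 0, 1)) (bits w (muf p))

/-- the digits of the run -/
def wf (w p : ℕ) : ℕ → ℕ := cW (dltN P K 2) (codest K (0, 0, 1)) (bits w (muf p))

/-- the sequence of the run -/
def sq (w p i : ℕ) : ℕ := seq (qn P K) (muf p) (qf P K w p) (wf P K w p) i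

/-- the cells of the first blocks -/
def cell0 (w p j τ : ℕ) : ℕ :=
  if τ < 2 then 1
  else if τ = 2 then (if j < muf p then dg 2 w (muf p - 1 - j) else dg 2 w (muf p - 1))
  else if τ = 3 then (if j < muf p then 1 else 0)
  else if j < muf p then 0 else if codest K (0, 0, 1) + 4 = τ then 1 else 0

/-- the first terms of the sequence -/
def sq0 (w p i : ℕ) : ℕ :=
  ∑ τ ∈ range (qn P K + 4),
    if i % 2 ^ (qn P K + 5) = 2 ^ τ then cell0 K w p (i / 2 ^ (qn P K + 5)) τ else 0

theorem sq_eq {w p i : ℕ} (hi : i < (muf p + 1) * 2 ^ (qn P K + 5)) :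
    sq P K w p i = sq0 P K w p i := by
  unfold sq seq sq0
  refine sum_congr rfl fun τ _ => ?_
  have hj : i / 2 ^ (qn P K + 5) < muf p + 1 := (Nat.div_lt_iff_lt_mul (by positivity)).2 hi
  set j := i / 2 ^ (qn P K + 5) with hj'
  have hμ := one_le_muf p
  have hw : ∀ l, l < muf p → wf P K w p l = dg 2 w (muf p - 1 - l) := by
    intro l hl
    have h1 := conf_get (δ := dltN P K 2) (c₀ := codest K (0, 0, 1)) hμ (bits_length w (muf p))
      l 0 hl
    rw [zero_add] at h1
    rw [wf, ← h1]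
    exact bits_getD hl
  have hcell : cell (muf p) (qf P K w p) (wf P K w p) j τ = cell0 K w p j τ := by
    unfold cell cell0
    by_cases hjm : j < muf p
    · simp only [if_pos hjm, hw j hjm]
    · have e1 : j - muf p = 0 := by omega
      simp only [if_neg hjm, e1, hw 0 (by omega), Nat.sub_zero]
      rfl
  rw [hcell]

variable {P K}

theorem run_facts (hP : ∀ i ∈ P, i.ok K P.length) (hlen : 0 < P.length) (w p : ℕ) :
    (∀ t, qf P K w p t < qn P K) ∧ (∀ t, wf P K w p t < 2) ∧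
    ∀ t, dltN P K 2 (qf P K w p t) (wf P K w p t) =
      (qf P K w p (t + 1), wf P K w p (t + muf p)) := by
  have hμ := one_le_muf p
  obtain ⟨n, hn⟩ : ∃ n, muf p = n + 1 := ⟨muf p - 1, by omega⟩
  have h1 := fun t => conf_orbit (n := n) (l₀ := bits w (muf p)) hP (st := (0, 0, 1))
    ⟨hlen, Nat.zero_le _, le_rfl⟩ (by rw [bits_length, hn]) (bits_lt _ _) t
  refine ⟨fun t => ?_, fun t => ?_, fun t => ?_⟩
  · obtain ⟨-, ⟨st', hst', hc⟩, -⟩ := h1 t
    have h2 := (coded (K := K) (s := 2) le_rfl hP).lt st' hst'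
    rw [hc] at h2
    exact h2
  · obtain ⟨-, -, h3⟩ := h1 t
    obtain ⟨l, h4, -⟩ := conf_cons (δ := dltN P K 2) (c₀ := codest K (0, 0, 1)) hμ
      (bits_length w (muf p)) t
    exact h3 _ (by rw [h4]; exact List.mem_cons_self)
  · exact conf_step hμ (bits_length w (muf p)) t

theorem seq_le_one {Q μ : ℕ} {q W : ℕ → ℕ} (hW : ∀ t, W t < 2) (i : ℕ) : seq Q μ q W i ≤ 1 := by
  by_cases h : ∃ τ < Q + 4, i % 2 ^ (Q + 5) = 2 ^ τ
  · obtain ⟨τ, hτ, hi⟩ := h
    have h1 : i = i / 2 ^ (Q + 5) * 2 ^ (Q + 5) + 2 ^ τ := by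
      rw [← hi, mul_comm]
      exact (Nat.div_add_mod _ _).symm
    rw [h1, seq_cell hτ]
    exact cell_le_one hW _ _
  · unfold seq
    rw [sum_eq_zero]
    · exact Nat.zero_le _
    · intro τ hτ
      rw [if_neg]
      intro h1
      exact h ⟨τ, mem_range.1 hτ, h1⟩

theorem muf_dfun {n : ℕ} {p : (Fin n → ℕ) → ℕ} (hp : DFun n p) : DFun n (fun v => muf (p v)) :=
  (DFun.lg hp).add ((DFun.const 1).sub (DFun.lg hp))

theorem sq0_dfun {n : ℕ} {w p i : (Fin n → ℕ) → ℕ} (hw : DFun n w) (hp : DFun n p)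
    (hi : DFun n i) : DFun n (fun v => sq0 P K (w v) (p v) (i v)) := by
  have hj : DFun n (fun v => i v / 2 ^ (qn P K + 5)) :=
    DFun.divPos hi (DFun.const _) (fun _ => by positivity)
  have hr : DFun n (fun v => i v % 2 ^ (qn P K + 5)) :=
    DFun.modPos hi (DFun.const _) (fun _ => by positivity)
  have hμ := muf_dfun hp
  have hlt : Delta0 n (fun v => i v / 2 ^ (qn P K + 5) < muf (p v)) := Delta0.ltFun hj hμ
  have h2 : DFun n (fun _ : Fin n → ℕ => 2) := DFun.const 2
  have hb1 : DFun n (fun v => dg 2 (w v) (muf (p v) - 1 - i v / 2 ^ (qn P K + 5))) :=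
    dfun_dg (m := fun _ => 2) h2 hw ((hμ.sub (DFun.const 1)).sub hj) (fun _ => le_rfl)
  have hb2 : DFun n (fun v => dg 2 (w v) (muf (p v) - 1)) :=
    dfun_dg (m := fun _ => 2) h2 hw (hμ.sub (DFun.const 1)) (fun _ => le_rfl)
  unfold sq0
  refine DFun.finSum _ fun τ => ?_
  refine DFun.ite (Delta0.eqFun hr (DFun.const _)) ?_ (DFun.const 0)
  unfold cell0
  by_cases h : τ < 2
  · simp only [if_pos h]
    exact DFun.const 1
  · simp only [if_neg h]
    by_cases h' : τ = 2
    · simp only [if_pos h']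
      exact DFun.ite hlt hb1 hb2
    · simp only [if_neg h']
      by_cases h'' : τ = 3
      · simp only [if_pos h'']
        exact DFun.ite hlt (DFun.const 1) (DFun.const 0)
      · simp only [if_neg h'']
        exact DFun.ite hlt (DFun.const 0) (DFun.const _)

/-- The sequence of the run is definable if quadratic recurrences are. -/
theorem sq_dfun {m k : ℕ} (hm : 2 ≤ m) (H : QuadRec m k) (hk : Fintype.card (Mon (qn P K)) ≤ k)
    (hP : ∀ i ∈ P, i.ok K P.length) (hlen : 0 < P.length) {n : ℕ} {w p t : (Fin n → ℕ) → ℕ}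
    (hw : DFun n w) (hp : DFun n p) (ht : DFun n t) :
    DFun n (fun v => sq P K (w v) (p v) (t v)) := by
  set ℓ := 2 ^ (qn P K + 5) with hℓ
  have hℓ0 : 0 < ℓ := by rw [hℓ]; positivity
  have hμ := muf_dfun hp
  have hN : DFun n (fun v => (muf (p v) + 1) * ℓ) := (hμ.add (DFun.const 1)).mul (DFun.const ℓ)
  have hB : DFun n (fun v => (4 * (p v + 1)) ^ (m * ℓ)) :=
    DFun.powConst ((DFun.const 4).mul (hp.add (DFun.const 1))) _
  have hNB : ∀ v, m ^ ((muf (p v) + 1) * ℓ) ≤ (4 * (p v + 1)) ^ (m * ℓ) := by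
    intro v
    have h1 : m ≤ 2 ^ m := Nat.lt_two_pow_self.le
    have h2 : 2 ^ lg (p v) ≤ p v + 1 := by
      rcases Nat.eq_zero_or_pos (p v) with h | h
      · rw [h]
        exact le_rfl
      · exact (Nat.pow_log_le_self 2 (by omega)).trans (Nat.le_succ _)
    have h3 := muf_le (p v)
    calc m ^ ((muf (p v) + 1) * ℓ) ≤ m ^ ((lg (p v) + 2) * ℓ) :=
          Nat.pow_le_pow_right (by omega) (Nat.mul_le_mul_right _ (by omega))
      _ ≤ (2 ^ m) ^ ((lg (p v) + 2) * ℓ) := Nat.pow_le_pow_left h1 _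
      _ = (4 * 2 ^ lg (p v)) ^ (m * ℓ) := by
        have h4 : 4 * 2 ^ lg (p v) = 2 ^ (lg (p v) + 2) := by rw [pow_add]; ring
        rw [h4, ← pow_mul, ← pow_mul]
        congr 1
        ring
      _ ≤ _ := Nat.pow_le_pow_left (Nat.mul_le_mul_left _ h2) _
  have hg : DFun (n + 1) (fun u => sq0 P K (w fun i => u i.succ) (p fun i => u i.succ) (u 0)) :=
    sq0_dfun hw.weak hp.weak (DFun.proj 0)
  have hx : DFun n (fun v => ∑ i ∈ range ((muf (p v) + 1) * ℓ), sq0 P K (w v) (p v) i * m ^ i) :=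
    dfun_code (m := fun _ => m) (g := fun i v => sq0 P K (w v) (p v) i) (DFun.const m) hN hB hg
      (fun _ => hm) hNB
  have hlt : ∀ v i, i < (muf (p v) + 1) * ℓ → sq0 P K (w v) (p v) i < m := by
    intro v i hi
    rw [← sq_eq P K hi]
    exact lt_of_le_of_lt (seq_le_one (run_facts hP hlen (w v) (p v)).2.1 i) (by omega)
  have htap : ∀ (τ x : ℕ), DFun n (fun v => tap (qn P K) (muf (p v)) τ x) := by
    intro τ x
    unfold tap
    refine DFun.sub (DFun.add (DFun.mul ?_ (DFun.const _)) (DFun.const _)) (DFun.const _)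
    by_cases h : τ = 2
    · simp only [if_pos h]
      exact DFun.const 1
    · simp only [if_neg h]
      exact hμ
  have htlt : ∀ v (τ x : ℕ), x < qn P K + 4 → tap (qn P K) (muf (p v)) τ x < (muf (p v) + 1) * ℓ := by
    intro v τ x hx
    have h1 := two_pow_lt_block hx
    rw [← hℓ] at h1
    have h2 : (if τ = 2 then 1 else muf (p v)) * ℓ ≤ muf (p v) * ℓ := by
      refine Nat.mul_le_mul_right _ ?_
      have := one_le_muf (p v)
      split_ifs <;> omega
    have h3 : 0 < 2 ^ τ := by positivity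
    have h4 : 0 < 2 ^ x := by positivity
    unfold tap
    rw [← hℓ, Nat.add_mul]
    omega
  have : Nonempty (Mon (qn P K)) := ⟨(⟨0, by omega⟩, .inl true)⟩
  refine H.index hk (N := fun v => (muf (p v) + 1) * ℓ) (B := fun v => (4 * (p v + 1)) ^ (m * ℓ))
    (x := fun v => ∑ i ∈ range ((muf (p v) + 1) * ℓ), sq0 P K (w v) (p v) i * m ^ i) (t := t)
    (a := fun M v => tap (qn P K) (muf (p v)) M.1 (mx M).1)
    (b := fun M v => tap (qn P K) (muf (p v)) M.1 (mx M).2)
    (c := fun M _ => mc m (dltN P K 2) M)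
    (s := fun v i => sq P K (w v) (p v) i)
    hN hB hx ht (fun M => htap _ _) (fun M => htap _ _) (fun M => DFun.const _) hNB
    (fun v M => ⟨htlt v _ _ (mx_lt M).1, htlt v _ _ (mx_lt M).2⟩) ?_ ?_
  · intro v i hi
    rw [sq_eq P K hi, dg_code (by omega) (fun i => sq0 P K (w v) (p v) i) (hlt v) hi]
  · intro v i
    obtain ⟨h1, h2, h3⟩ := run_facts hP hlen (w v) (p v)
    exact seq_rec hm (one_le_muf (p v)) h1 h2 (fun c a hc ha => dltN_lt hP c a hc ha) h3 i

end Pool.Agent.H80Q
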